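import Pool.Agent.Run7.h198.CA.Defs

set_option autoImplicit false

namespace Pool.Agent.Run7.h884.CA

open Finset Pool.Agent.Run7.h198.CA

theorem t_GREEDY : S_GREEDY := by
  intro α _ near _ B X
  induction X using Finset.strongInduction with
  | H X ih =>
    intro hr hs hB
    rcases X.eq_empty_or_nonempty with rfl | ⟨x, hx⟩
    · exact ⟨∅, Finset.empty_subset _, by simp, by simp⟩
    · have hX' : X.filter (fun y => ¬ near x y) ⊂ X :=
        Finset.filter_ssubset.2 ⟨x, hx, not_not.2 (hr x hx)⟩
      obtain ⟨Y, hY, hc, hn⟩ := ih _ hX' (fun y hy => hr y (hX'.1 hy))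
        (fun y hy z hz => hs y (hX'.1 hy) z (hX'.1 hz))
        (fun y hy => (card_le_card (filter_subset_filter _ hX'.1)).trans (hB y (hX'.1 hy)))
      have hxY : x ∉ Y := fun h => (mem_filter.1 (hY h)).2 (hr x hx)
      refine ⟨insert x Y, insert_subset hx (hY.trans hX'.1), ?_, ?_⟩
      · rw [card_insert_of_notMem hxY, ← card_filter_add_card_filter_not (s := X) (fun y => near x y),
          mul_add, mul_one, add_comm]
        exact add_le_add hc (hB x hx)
      · intro y hy z hz hyz
        rw [mem_insert] at hy hz
        rcases hy with rfl | hy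
        · rcases hz with rfl | hz
          · exact absurd rfl hyz
          · exact (mem_filter.1 (hY hz)).2
        · rcases hz with rfl | hz
          · exact fun h => (mem_filter.1 (hY hy)).2 (hs _ (hX'.1 (hY hy)) _ hx h)
          · exact hn y hy z hz hyz

end Pool.Agent.Run7.h884.CA
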